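import Mathlib

namespace Pool.Agent.H.MP_173f50_lc

open Set Cardinal Filter Topology MeasureTheory OuterMeasure Metric
open scoped NNReal ENNReal

theorem card_mono : #{f : ℝ≥0 → ℝ≥0 | Monotone f} ≤ 𝔠 := by
  have a : #{s : Set ℝ | MeasurableSet s} ≤ 𝔠 := by
    rw [BorelSpace.measurable_eq (α := ℝ), Real.borel_eq_generateFrom_Iio_rat]
    exact MeasurableSpace.cardinal_measurableSet_le_continuum ((le_aleph0_iff_set_countable.2
      (countable_iUnion fun _ => countable_singleton _)).trans aleph0_le_continuum)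
  refine (mk_le_of_injective (f := fun (F : {f : ℝ≥0 → ℝ≥0 | Monotone f}) (q : ℚ) =>
    (⟨(fun x : ℝ => (F.1 x.toNNReal : ℝ)) ⁻¹' Iio q, (NNReal.coe_mono.comp (F.2.comp
      fun _ _ => Real.toNNReal_mono)).measurable measurableSet_Iio⟩ : {s : Set ℝ | MeasurableSet s}))
        fun F G h => ?_).trans ?_
  · ext x
    refine eq_of_forall_lt_rat_iff_lt fun q => ?_
    simpa using Set.ext_iff.1 (congrArg Subtype.val (congrFun h q)) x
  · rw [← power_def, mk_denumerable ℚ, ← continuum_power_aleph0]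
    exact power_le_power_right a

noncomputable def S : ℕ → Finset ℝ × ℝ≥0
  | 0 => ({0}, 1)
  | i + 1 =>
    let N : ℕ := 2 ^ i * ((S i).1.card + 1)
    let c := (S i).2 / N / 4
    (((S i).1 ×ˢ Finset.range N ×ˢ Finset.univ).image fun p : ℝ × ℕ × Bool =>
      p.1 + (if p.2.2 then c else (S i).2 : ℝ≥0) / N * p.2.1, c)

noncomputable def N (i : ℕ) : ℕ := 2 ^ i * ((S i).1.card + 1)

noncomputable def c (i : ℕ) : ℝ≥0 := (S i).2

noncomputable def γ (T : ℕ → Bool) (i : ℕ) : ℝ≥0 := if T i then c (i + 1) else c i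

noncomputable def t (T : ℕ → Bool) (u : ℝ) (i : ℕ) : ℝ := γ T i / N i * ⌊N i * u⌋₊

noncomputable def g (T : ℕ → Bool) (u : ℝ) : ℝ := ∑' i, t T u i

noncomputable def f (T : ℕ → Bool) (r : ℝ≥0) : ℝ≥0 := ⨅ j, (((N j : ℝ≥0))⁻¹ + r / γ T j)

theorem N_pos (i : ℕ) : 0 < N i := by
  unfold N
  positivity

theorem c_succ (i : ℕ) : c (i + 1) = c i / N i / 4 := rfl

theorem c_pos (i : ℕ) : 0 < c i := by
  induction i with
  | zero => exact one_pos
  | succ i ih =>
    have := N_pos i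
    rw [c_succ]
    positivity

theorem c_le (i : ℕ) : (c (i + 1) : ℝ) ≤ c i / 4 := by
  rw [c_succ]
  push_cast
  gcongr
  exact div_le_self (c i).2 (Nat.one_le_cast.2 (N_pos i))

theorem c_add (i j : ℕ) : (c (j + i) : ℝ) ≤ c i * (1 / 2) ^ j := by
  induction j with
  | zero => simp
  | succ j ih =>
    rw [add_right_comm, pow_succ]
    linarith [c_le (j + i), (c (j + i)).coe_nonneg]

variable {T : ℕ → Bool} {u v : ℝ}

theorem γ_pos (i : ℕ) : 0 < γ T i := by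
  unfold γ
  split_ifs <;> exact c_pos _

theorem γ_le (i : ℕ) : (γ T i : ℝ) ≤ c i := by
  unfold γ
  split_ifs
  exacts [by linarith [c_le i, (c i).coe_nonneg], le_rfl]

theorem t_nonneg (i : ℕ) : 0 ≤ t T u i := by
  unfold t
  positivity

theorem fl_lt (h : u ∈ Ico (0 : ℝ) 1) (i : ℕ) : ⌊N i * u⌋₊ < N i :=
  (Nat.floor_lt' (N_pos i).ne').2 (mul_lt_of_lt_one_right (Nat.cast_pos.2 (N_pos i)) h.2)

theorem t_le (h : u ∈ Ico (0 : ℝ) 1) (i : ℕ) : t T u i ≤ γ T i :=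
  (mul_le_mul_of_nonneg_left (Nat.cast_le.2 (fl_lt h i).le) (by positivity)).trans_eq
    (div_mul_cancel₀ _ (Nat.cast_pos.2 (N_pos i)).ne')

theorem t_geo (h : u ∈ Ico (0 : ℝ) 1) (i j : ℕ) : t T u (j + i) ≤ c i * (1 / 2) ^ j :=
  (t_le h _).trans ((γ_le _).trans (c_add i j))

theorem t_sum (h : u ∈ Ico (0 : ℝ) 1) (i : ℕ) : Summable fun j => t T u (j + i) :=
  .of_nonneg_of_le (fun _ => t_nonneg _) (t_geo h i) (summable_geometric_two.mul_left _)

theorem t_sum0 (h : u ∈ Ico (0 : ℝ) 1) : Summable (t T u) := t_sum h 0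

theorem part (h : u ∈ Ico (0 : ℝ) 1) (i : ℕ) : ∑ j ∈ Finset.range i, t T u j ∈ (S i).1 := by
  induction i with
  | zero => simp [S]
  | succ i ih =>
    rw [Finset.sum_range_succ]
    exact Finset.mem_image.2 ⟨(_, _, T i), Finset.mem_product.2 ⟨ih, Finset.mem_product.2
      ⟨Finset.mem_range.2 (fl_lt h i), Finset.mem_univ _⟩⟩, rfl⟩

theorem cov (h : u ∈ Ico (0 : ℝ) 1) {i : ℕ} (hi : T i) :
    ∃ p ∈ (S i).1, g T u ∈ Icc p (p + (4 * c (i + 1) : ℝ≥0)) := by
  refine ⟨_, part (T := T) h i, ?_⟩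
  have a1 := ((t_sum (T := T) h (i + 1)).tsum_le_tsum (t_geo h _)
    (summable_geometric_two.mul_left _)).trans_eq (by rw [tsum_mul_left, tsum_geometric_two])
  have a2 : 0 ≤ ∑' j, t T u (j + (i + 1)) := tsum_nonneg fun _ => t_nonneg _
  have a3 := t_le (T := T) h i
  rw [γ, if_pos hi] at a3
  rw [g, ← (t_sum0 h).sum_add_tsum_nat_add (i + 1), Finset.sum_range_succ]
  push_cast
  constructor <;> linarith [t_nonneg (T := T) (u := u) i, (c (i + 1)).coe_nonneg]

theorem sep (hu : u ∈ Ico (0 : ℝ) 1) (hv : v ∈ Ico (0 : ℝ) 1) (h : u ≤ v) :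
    nndist u v ≤ f T (nndist (g T u) (g T v)) := by
  refine le_ciInf fun j => NNReal.coe_le_coe.1 ?_
  have a1 : t T v j - t T u j ≤ g T v - g T u := by
    rw [g, g, ← (t_sum0 hv).tsum_sub (t_sum0 hu)]
    refine ((t_sum0 hv).sub (t_sum0 hu)).le_tsum j fun i _ => sub_nonneg.2 ?_
    unfold t
    gcongr
  have a2 : (0 : ℝ) < N j := Nat.cast_pos.2 (N_pos j)
  have a3 : (0 : ℝ) < γ T j := γ_pos j
  have a4 := Nat.floor_le (mul_nonneg a2.le hu.1)
  have a5 := Nat.lt_floor_add_one (N j * v)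
  push_cast
  rw [Real.dist_eq, abs_sub_comm, abs_of_nonneg (sub_nonneg.2 h), ← sub_le_iff_le_add',
    le_div_iff₀ a3, dist_comm]
  refine le_trans ?_ (a1.trans (le_abs_self _))
  rw [t, t, ← mul_sub, show (v - u - (N j : ℝ)⁻¹) * γ T j = γ T j / N j * (N j * v - N j * u - 1) by
    field_simp]
  exact mul_le_mul_of_nonneg_left (by linarith) (by positivity)

theorem f_le (r : ℝ≥0) (j : ℕ) : f T r ≤ ((N j : ℝ≥0))⁻¹ + r / γ T j :=
  ciInf_le (OrderBot.bddBelow _) j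

theorem f_mono : Monotone (f T) := fun _ _ h => ciInf_mono (OrderBot.bddBelow _) fun _ => by gcongr

theorem f_zero : f T 0 = 0 := by
  refine le_antisymm (ge_of_tendsto' (NNReal.tendsto_pow_atTop_nhds_zero_of_lt_one two_inv_lt_one)
    fun j => (f_le 0 j).trans ?_) bot_le
  rw [zero_div, add_zero, inv_pow]
  gcongr
  exact_mod_cast Nat.le_mul_of_pos_right _ (Nat.succ_pos _)

theorem f_pos {r : ℝ≥0} (h : 0 < r) : 0 < f T r := by
  refine h.trans_le (le_ciInf fun j => le_add_left (le_div_self bot_le (γ_pos j) ?_))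
  refine NNReal.coe_le_coe.1 ((γ_le j).trans ((c_add 0 j).trans ?_))
  exact mul_le_one₀ le_rfl (by positivity) (pow_le_one₀ (by norm_num) (by norm_num))

theorem f_cont (x : ℝ≥0) : ContinuousWithinAt (f T) (Ici x) x := by
  refine tendsto_order.2 ⟨fun a h => eventually_mem_nhdsWithin.mono fun y hy =>
    h.trans_le (f_mono hy), fun a h => ?_⟩
  obtain ⟨j, h⟩ := exists_lt_of_ciInf_lt h
  exact (((by fun_prop : Continuous fun r : ℝ≥0 => ((N j : ℝ≥0))⁻¹ + r / γ T j).tendsto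
    x).eventually_lt_const h).filter_mono nhdsWithin_le_nhds |>.mono fun y => (f_le y j).trans_lt

noncomputable abbrev Hs (T : ℕ → Bool) : OuterMeasure ℝ :=
  mkMetric fun r : ℝ≥0∞ => ((f T r.toNNReal : ℝ≥0) : ℝ≥0∞)

theorem H_pos : 0 < Hs T (g T '' Ico 0 1) := by
  refine lt_of_lt_of_le ?_ (le_mkMetric _ (map (g T) (restrict (Ico 0 1) volume.toOuterMeasure)) 1
    one_pos (fun s hs => ?_) _)
  · simp [inter_eq_right.2 (subset_preimage_image _ _)]
  · simp only [map_apply, OuterMeasure.restrict_apply, Measure.coe_toOuterMeasure]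
    refine (Real.volume_le_diam _).trans (ediam_le fun u hu v hv => ?_)
    wlog h : u ≤ v generalizing u v
    · exact edist_comm u v ▸ this v hv u hu (le_of_not_ge h)
    rw [edist_nndist, ENNReal.coe_le_coe]
    refine (sep hu.2 hv.2 h).trans (f_mono ?_)
    rw [← ENNReal.coe_le_coe, ENNReal.coe_toNNReal (hs.trans_lt ENNReal.one_lt_top).ne,
      ← edist_nndist]
    exact edist_le_ediam_of_mem hu.1 hv.1

theorem H_zero : Hs T {x | ∃ᶠ i in atTop, ¬T i ∧
    ∃ p ∈ (S i).1, x ∈ Icc p (p + (4 * c (i + 1) : ℝ≥0))} = 0 := by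
  simp only [Hs, mkMetric, mkMetric', OuterMeasure.iSup_apply, ENNReal.iSup_eq_zero]
  intro r hr
  have a : ∀ᶠ i in atTop, ((4 * c (i + 1) : ℝ≥0) : ℝ≥0∞) ≤ r := by
    refine Tendsto.eventually_le_const hr (ENNReal.tendsto_coe.2 (NNReal.tendsto_coe.1 ?_))
    refine squeeze_zero (fun _ => NNReal.coe_nonneg _) (fun i => ?_) (mul_zero (c 1 * 4 : ℝ) ▸
      (tendsto_pow_atTop_nhds_zero_of_lt_one (by norm_num) one_half_lt_one).const_mul _)
    push_cast
    linarith [c_add 1 i]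
  refine measure_mono_null (fun x hx => (hx.and_eventually a).mono fun i h =>
    mem_iUnion.2 ⟨⟨h.1.1, h.2⟩, h.1.2.elim fun p hp => mem_iUnion₂.2 ⟨p, hp.1, hp.2⟩⟩)
    (measure_setOfPred_frequently_eq_zero (p := fun i x => x ∈ ⋃ (_ : ¬T i ∧ ((4 * c (i + 1) : ℝ≥0) :
      ℝ≥0∞) ≤ r), ⋃ p ∈ (S i).1, Icc p (p + (4 * c (i + 1) : ℝ≥0))) (ne_top_of_le_ne_top
        (b := ∑' i, ((2 * 2⁻¹ ^ i : ℝ≥0) : ℝ≥0∞)) ?_ (ENNReal.tsum_le_tsum fun i => ?_)))
  · exact ENNReal.tsum_coe_ne_top_iff_summable.2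
      ((NNReal.summable_geometric two_inv_lt_one).mul_left _)
  rw [ofPred_mem_eq]
  by_cases h : ¬T i ∧ ((4 * c (i + 1) : ℝ≥0) : ℝ≥0∞) ≤ r
  · rw [iUnion_eq_if, if_pos h]
    refine (measure_biUnion_finset_le _ _).trans ((Finset.sum_le_card_nsmul _ _
      ((2 * ((N i : ℝ≥0))⁻¹ : ℝ≥0) : ℝ≥0∞) fun p _ => ?_).trans ?_)
    · have e : ediam (Icc p (p + (4 * c (i + 1) : ℝ≥0))) = (4 * c (i + 1) : ℝ≥0) := by
        rw [Real.ediam_Icc, add_sub_cancel_left, ENNReal.ofReal_coe_nnreal]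
      refine (mkMetric'.pre_le (e ▸ h.2)).trans ?_
      rw [e, ENNReal.toNNReal_coe, ENNReal.coe_le_coe]
      refine (f_le _ i).trans_eq ?_
      have := (c_pos i).ne'
      rw [γ, if_neg h.1, c_succ]
      field_simp
      norm_num
    · rw [← ENNReal.coe_nsmul, ENNReal.coe_le_coe, nsmul_eq_mul, N]
      push_cast
      rw [mul_inv, inv_pow, mul_comm, ← mul_assoc, mul_assoc]
      refine mul_le_of_le_one_right bot_le ?_
      rw [inv_mul_le_one₀ (by positivity)]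
      exact le_self_add
  · rw [iUnion_eq_if, if_neg h, measure_empty]
    exact bot_le

def B (y : ℕ → Bool) (i : ℕ) : Bool := y i.unpair.1.div2 == i.unpair.1.bodd

theorem H_iff (Y : Set (ℕ → Bool)) (y : ℕ → Bool) :
    0 < Hs (B y) (⋃ x ∈ Y, g (B x) '' Ico 0 1) ↔ y ∈ Y := by
  refine ⟨fun h => by_contra fun k => h.ne' (measure_mono_null (iUnion₂_subset fun x hx => ?_)
    H_zero), fun h => H_pos.trans_le (measure_mono (subset_biUnion_of_mem (u := fun x =>
      g (B x) '' Ico 0 1) h))⟩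
  rintro _ ⟨u, hu, rfl⟩
  obtain ⟨n, hn⟩ := Function.ne_iff.1 (ne_of_mem_of_not_mem hx k)
  exact frequently_atTop.2 fun m => ⟨(Nat.bit (x n) n).pair m, Nat.right_le_pair _ _,
    by simpa [B] using hn.symm, cov hu (by simp [B])⟩

end Pool.Agent.H.MP_173f50_lc
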